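import Pool.Agent.U834.GSP.StmA

/-!
# Project GSP, package ISO: an isometric embedding into a product of matrix algebras (helper750)
-/

set_option autoImplicit false

open scoped Matrix.Norms.L2Operator Matrix
open Finset

namespace Pool.Agent.U750.GSP.ISO

open Pool.Agent.U834.GSP

/-- conjugation with a unit -/
noncomputable def cj {r : ℕ} (S : (Matrix (Fin r) (Fin r) ℂ)ˣ) :
    Matrix (Fin r) (Fin r) ℂ →ₐ[ℂ] Matrix (Fin r) (Fin r) ℂ where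
  toFun X := (S : Matrix (Fin r) (Fin r) ℂ) * X *
    ((S⁻¹ : (Matrix (Fin r) (Fin r) ℂ)ˣ) : Matrix (Fin r) (Fin r) ℂ)
  map_one' := by rw [mul_one, Units.mul_inv]
  map_mul' X Y := by
    simp only [mul_assoc, Units.inv_mul_cancel_left]
  map_zero' := by rw [mul_zero, zero_mul]
  map_add' X Y := by rw [mul_add, add_mul]
  commutes' c := by
    rw [← Algebra.commutes, mul_assoc, Units.mul_inv, mul_one]

lemma cj_inj {r : ℕ} (S : (Matrix (Fin r) (Fin r) ℂ)ˣ) : Function.Injective (cj S) := by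
  intro X Y h
  have h1 : (S : Matrix (Fin r) (Fin r) ℂ) * X *
      ((S⁻¹ : (Matrix (Fin r) (Fin r) ℂ)ˣ) : Matrix (Fin r) (Fin r) ℂ) =
      (S : Matrix (Fin r) (Fin r) ℂ) * Y *
      ((S⁻¹ : (Matrix (Fin r) (Fin r) ℂ)ˣ) : Matrix (Fin r) (Fin r) ℂ) := h
  exact (Units.mul_right_inj S).1 ((Units.mul_left_inj S⁻¹).1 h1)

theorem t_ISO : S_WEA → S_INT → S_UNT → S_ISO := by
  intro hWEA hINT hUNT m 𝒜
  obtain ⟨k, d, Φ, hdim⟩ := hWEA m 𝒜
  choose T hT1 hT2 using fun i => hINT m 𝒜 k d Φ i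
  let ρ : (i : Fin k) → 𝒜 →ₐ[ℂ] Matrix (Fin (d i)) (Fin (d i)) ℂ := fun i =>
    (Pi.evalAlgHom ℂ (fun i : Fin k => Matrix (Fin (d i)) (Fin (d i)) ℂ) i).comp
      (Φ : 𝒜 →ₐ[ℂ] ((i : Fin k) → Matrix (Fin (d i)) (Fin (d i)) ℂ))
  choose S hS using fun i => hUNT m (d i) 𝒜 (ρ i) (T i) (hT1 i) (hT2 i)
  let Ψ : 𝒜 →ₐ[ℂ] ((i : Fin k) → Matrix (Fin (d i)) (Fin (d i)) ℂ) :=
    AlgHom.pi fun i => (cj (S i)).comp (ρ i)
  have hΨ : ∀ a i, Ψ a i = cj (S i) (Φ a i) := fun a i => rfl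
  have hstar : ∀ a, Ψ (star a) = star (Ψ a) := by
    intro a
    funext i
    exact hS i a
  have hinj : Function.Injective Ψ := by
    intro a b h
    apply Φ.injective
    funext i
    exact cj_inj (S i) (congrFun h i)
  let Ψs : 𝒜 →⋆ₐ[ℂ] ((i : Fin k) → Matrix (Fin (d i)) (Fin (d i)) ℂ) :=
    { Ψ with map_star' := hstar }
  have hcl : IsClosed (𝒜 : Set (Matrix (Fin m) (Fin m) ℂ)) :=
    Submodule.closed_of_finiteDimensional (Subalgebra.toSubmodule 𝒜.toSubalgebra)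
  have hnorm : ∀ a : 𝒜, ‖Ψs a‖ = ‖a‖ := fun a =>
    NonUnitalStarAlgHom.norm_map Ψs hinj a
  refine ⟨k, d, Ψ, hdim, fun a => ⟨fun i => ?_, fun c hc h => ?_⟩⟩
  · have h1 := norm_le_pi_norm (Ψs a) i
    rw [hnorm] at h1
    exact h1
  · have h1 : ‖Ψs a‖ ≤ c := (pi_norm_le_iff_of_nonneg hc).2 h
    rw [hnorm] at h1
    exact h1

end Pool.Agent.U750.GSP.ISO
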