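import Pool.Agent.Q98.SPN.Stm

/-!
# Project GSP, package COV: cover of the set of tuples with bounded moments (helper750)
-/

set_option autoImplicit false

open scoped Matrix.Norms.L2Operator Matrix
open Finset

namespace Pool.Agent.U750.GSP.COV

open Pool.Agent.Q98.SPN
open Pool.Agent.H172R2.GS (sg XX arrays)

lemma one_le_sc2 {m κ : ℕ} (hm : 0 < m) (hκ : 2 ≤ κ) : 1 ≤ sc m κ ^ 2 := by
  unfold sc
  rw [Real.sq_sqrt (by positivity)]
  have h1 : (1 : ℝ) ≤ Real.exp 2 := Real.one_le_exp (by norm_num)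
  have h2 : (1 : ℝ) ≤ m := by exact_mod_cast hm
  have h3 : (1 : ℝ) ≤ κ := by exact_mod_cast (by omega : 1 ≤ κ)
  have h4 : (1 : ℝ) ≤ 200 * Real.exp 2 := by linarith
  have h5 : (1 : ℝ) ≤ 200 * Real.exp 2 * κ := one_le_mul_of_one_le_of_one_le h4 h3
  exact one_le_mul_of_one_le_of_one_le h5 h2

lemma sc_pos {m κ : ℕ} (hm : 0 < m) (hκ : 2 ≤ κ) : 0 < sc m κ := by
  unfold sc
  have h1 : (0 : ℝ) < m := by exact_mod_cast hm
  have h2 : (0 : ℝ) < κ := by exact_mod_cast (by omega : 0 < κ)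
  positivity

lemma exists_K {m κ : ℕ} (hm : 0 < m) (hκ : 2 ≤ κ) (M : ℝ) :
    ∃ K : ℕ, M < (4 ^ K * sc m κ ^ 2) ^ κ := by
  obtain ⟨K, hK⟩ := pow_unbounded_of_one_lt M (by norm_num : (1 : ℝ) < 4)
  refine ⟨K, hK.trans_le ?_⟩
  have h1 := one_le_sc2 hm hκ
  have h2 : (1 : ℝ) ≤ 4 ^ K := one_le_pow₀ (by norm_num)
  have h3 : (4 : ℝ) ^ K ≤ 4 ^ K * sc m κ ^ 2 := le_mul_of_one_le_right (by positivity) h1
  have h4 : (1 : ℝ) ≤ 4 ^ K * sc m κ ^ 2 := h2.trans h3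
  exact h3.trans (le_self_pow₀ h4 (by omega))

lemma geo (s : ℝ) (K : ℕ) : ∑ k ∈ range K, s / 2 ^ k = 2 * s - 2 * s / 2 ^ K := by
  induction K with
  | zero => simp
  | succ K ih =>
    rw [sum_range_succ, ih, pow_succ]
    field_simp
    ring

lemma zz_pos (κ k : ℕ) : 0 < zz κ k := by
  unfold zz
  positivity

lemma zz_le (κ k : ℕ) : zz κ k ≤ 1 / 2 := by
  unfold zz
  refine one_div_le_one_div_of_le (by norm_num) ?_
  have h1 : (1 : ℝ) ≤ 2 ^ k := one_le_pow₀ (by norm_num)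
  have h2 : (1 : ℝ) ≤ Real.exp κ := Real.one_le_exp (Nat.cast_nonneg _)
  have h3 : (1 : ℝ) ≤ 2 ^ k * Real.exp κ := one_le_mul_of_one_le_of_one_le h1 h2
  nlinarith

theorem t_COV : S_COVL → S_LEV → S_LOGC → S_NUM → S_COV := by
  classical
  intro hCOVL hLEV hLOGC hNUM ι _ _ d m κ N hd hdN hm hκ hNm
  obtain ⟨K, hK⟩ := exists_K hm hκ (2 * N * (2 * Real.exp 1 * κ * m) ^ κ)
  have hs := sc_pos hm hκ
  choose F hF1 hF2 using fun k : ℕ =>
    hLEV ι d (qq m κ k) k (zz κ k) (sc m κ) (zz_pos κ k) (zz_le κ k) hs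
  have hι : (Fintype.card ι : ℝ) ≤ m * Real.exp κ := by
    refine le_trans ?_ (hdN.trans hNm)
    have h1 : Fintype.card ι ≤ ∑ i, d i ^ 2 := by
      have h2 : ∑ i : ι, 1 ≤ ∑ i, d i ^ 2 := by
        refine sum_le_sum fun i _ => ?_
        exact Nat.one_le_pow _ _ (hd i)
      simpa using h2
    exact_mod_cast h1
  have hB : ∀ k, ((F k).card : ℝ) ≤
      Real.exp (m / (200 * 2 ^ k) + m / 16 ^ k * (2 * (22.1 + 13.6 * k + κ) / 100 ^ κ)) :=
    fun k => hLOGC m κ k (Fintype.card ι) (F k).card (Nat.cast_nonneg _) hι (Nat.cast_nonneg _)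
      (hF1 k)
  refine ⟨(Fintype.piFinset (fun k : Fin K => F k)).image (fun Zs => ∑ k, Zs k), ?_, ?_⟩
  · have h1 : ((Fintype.piFinset (fun k : Fin K => F k)).image (fun Zs => ∑ k, Zs k)).card ≤
        ∏ k : Fin K, (F k).card := by
      refine card_image_le.trans (le_of_eq ?_)
      rw [Fintype.card_piFinset]
    calc ((((Fintype.piFinset (fun k : Fin K => F k)).image (fun Zs => ∑ k, Zs k)).card : ℕ) : ℝ)
        ≤ ((∏ k : Fin K, (F k).card : ℕ) : ℝ) := by exact_mod_cast h1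
      _ = ∏ k : Fin K, ((F k).card : ℝ) := by push_cast; rfl
      _ ≤ ∏ k : Fin K, Real.exp (m / (200 * 2 ^ (k : ℕ)) +
            m / 16 ^ (k : ℕ) * (2 * (22.1 + 13.6 * (k : ℕ) + κ) / 100 ^ κ)) :=
          prod_le_prod (fun k _ => Nat.cast_nonneg _) fun k _ => hB k
      _ = Real.exp (∑ k : Fin K, (m / (200 * 2 ^ (k : ℕ)) +
            m / 16 ^ (k : ℕ) * (2 * (22.1 + 13.6 * (k : ℕ) + κ) / 100 ^ κ))) := by
          rw [Real.exp_sum]
      _ ≤ Real.exp ((m : ℝ) / 50) := by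
          apply Real.exp_le_exp.2
          have h2 := hNUM m κ K hκ
          rw [← Fin.sum_univ_eq_sum_range (fun k : ℕ => ((m : ℝ) / (200 * 2 ^ k) +
            (m : ℝ) / 16 ^ k * (2 * (22.1 + 13.6 * k + κ) / 100 ^ κ)))] at h2
          exact h2
  · intro Y hY
    obtain ⟨r, W, V, h1, h2, h3⟩ := hCOVL ι d m κ K N hd hm hκ hNm hK Y hY
    have h4 : ∀ k : Fin K, ∃ Z ∈ F k, ∀ i, ‖W k i * (V k i)ᴴ - Z i‖ ≤ sc m κ / 2 ^ (k : ℕ) := by
      intro k
      have h5 := h3 k (mem_range.2 k.2)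
      have h6 : ∑ i, r k i ≤ qq m κ k := by
        refine le_trans (sum_le_sum fun i _ => ?_) h5
        exact Nat.le_mul_of_pos_left _ (hd i)
      exact hF2 k (r k) (W k) (V k) h6 h5 (fun i => (h2 k i).1) fun i => (h2 k i).2
    choose Z hZ1 hZ2 using h4
    refine ⟨∑ k, Z k, mem_image.2 ⟨Z, Fintype.mem_piFinset.2 hZ1, rfl⟩, fun i => ?_⟩
    have h7 : Y i - (∑ k, Z k) i = (Y i - ∑ k ∈ range K, W k i * (V k i)ᴴ) +
        ∑ k : Fin K, (W k i * (V k i)ᴴ - Z k i) := by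
      rw [Finset.sum_apply, Finset.sum_sub_distrib,
        Fin.sum_univ_eq_sum_range (fun k : ℕ => W k i * (V k i)ᴴ) K]
      abel
    rw [h7]
    have h8 : ‖∑ k : Fin K, (W k i * (V k i)ᴴ - Z k i)‖ ≤ 2 * sc m κ := by
      refine (norm_sum_le _ _).trans ((sum_le_sum fun k _ => hZ2 k i).trans ?_)
      rw [Fin.sum_univ_eq_sum_range (fun k : ℕ => sc m κ / 2 ^ k) K, geo]
      have : 0 ≤ 2 * sc m κ / 2 ^ K := by positivity
      linarith
    have h9 := norm_add_le (Y i - ∑ k ∈ range K, W k i * (V k i)ᴴ)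
      (∑ k : Fin K, (W k i * (V k i)ᴴ - Z k i))
    have h10 := h1 i
    linarith

end Pool.Agent.U750.GSP.COV
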